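import Pool.Agent.W569.TG.Defs

/-! TG-ORTH: an ultrametric norm on `ℚ_[p] ^ n` has an orthogonal basis. -/

set_option autoImplicit false

namespace Pool.Agent.W563.TG

open Pool.Agent.W569.TG Filter Topology

section

variable {p : ℕ} [Fact p.Prime] {n : ℕ} {N : (Fin n → ℚ_[p]) → ℝ}
  (h0 : ∀ v, N v = 0 ↔ v = 0) (hpos : ∀ v, 0 ≤ N v)
  (hs : ∀ (c : ℚ_[p]) v, N (c • v) = ‖c‖ * N v)
  (hu : ∀ u v, N (u + v) ≤ max (N u) (N v))

include hs in
theorem neg_eq (v : Fin n → ℚ_[p]) : N (-v) = N v := by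
  have h := hs (-1) v
  rwa [neg_one_smul, norm_neg, norm_one, one_mul] at h

include hpos hu in
theorem add_le (u v : Fin n → ℚ_[p]) : N (u + v) ≤ N u + N v :=
  (hu u v).trans (max_le (le_add_of_nonneg_right (hpos v)) (le_add_of_nonneg_left (hpos u)))

include h0 hpos hs hu in
theorem upper : ∃ C : ℝ, 0 ≤ C ∧ ∀ v, N v ≤ C * ‖v‖ := by
  refine ⟨∑ i, N (Pi.single i 1), Finset.sum_nonneg fun i _ => hpos _, fun v => ?_⟩
  have h1 : ∀ s : Finset (Fin n), ∀ g : Fin n → (Fin n → ℚ_[p]),
      N (∑ i ∈ s, g i) ≤ ∑ i ∈ s, N (g i) := by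
    intro s g
    classical
    induction s using Finset.induction_on with
    | empty => rw [Finset.sum_empty, Finset.sum_empty, (h0 0).2 rfl]
    | insert a s ha ih =>
      rw [Finset.sum_insert ha, Finset.sum_insert ha]
      exact (add_le hpos hu _ _).trans (by linarith)
  have h2 : v = ∑ i, v i • (Pi.single i 1 : Fin n → ℚ_[p]) := by
    funext j
    rw [Finset.sum_apply, Finset.sum_eq_single j]
    · simp
    · intro b _ hb
      rw [Pi.smul_apply, Pi.single_eq_of_ne (Ne.symm hb), smul_zero]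
    · intro hj
      exact absurd (Finset.mem_univ j) hj
  conv_lhs => rw [h2]
  refine (h1 _ _).trans ?_
  rw [Finset.sum_mul]
  refine Finset.sum_le_sum fun i _ => ?_
  rw [hs, mul_comm]
  exact mul_le_mul_of_nonneg_left (norm_le_pi_norm v i) (hpos _)

include h0 hpos hs hu in
theorem cont : Continuous N := by
  obtain ⟨C, hC0, hC⟩ := upper h0 hpos hs hu
  have h1 : ∀ u v, |N u - N v| ≤ C * ‖u - v‖ := by
    intro u v
    have a1 := add_le hpos hu (u - v) v
    have a2 := add_le hpos hu (v - u) u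
    rw [sub_add_cancel] at a1 a2
    have a3 : N (v - u) = N (u - v) := by rw [← neg_sub, neg_eq hs]
    have a4 := hC (u - v)
    rw [abs_le]
    constructor <;> linarith
  have h2 : LipschitzWith (Real.toNNReal C) N := LipschitzWith.of_dist_le_mul fun u v => by
    rw [Real.dist_eq, dist_eq_norm, Real.coe_toNNReal C hC0]
    exact h1 u v
  exact h2.continuous

include h0 hpos hs hu in
theorem lower : ∃ c : ℝ, 0 < c ∧ ∀ v, c * ‖v‖ ≤ N v := by
  rcases Set.eq_empty_or_nonempty (Metric.sphere (0 : Fin n → ℚ_[p]) 1) with he | hne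
  · refine ⟨1, one_pos, fun v => ?_⟩
    have hv : v = 0 := by
      by_contra hv
      obtain ⟨i, hi⟩ : ∃ i, v i ≠ 0 := by
        by_contra hc
        push Not at hc
        exact hv (funext hc)
      have : (Pi.single i 1 : Fin n → ℚ_[p]) ∈ Metric.sphere (0 : Fin n → ℚ_[p]) 1 := by
        rw [mem_sphere_zero_iff_norm, Pi.norm_single, norm_one]
      rw [he] at this
      exact this
    rw [hv, norm_zero, mul_zero]
    exact hpos _
  · obtain ⟨x, hx, hmin⟩ := (isCompact_sphere (0 : Fin n → ℚ_[p]) 1).exists_isMinOn hne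
      (cont h0 hpos hs hu).continuousOn
    rw [mem_sphere_zero_iff_norm] at hx
    have hx0 : x ≠ 0 := by
      intro h
      rw [h, norm_zero] at hx
      exact zero_ne_one hx
    have hNx : 0 < N x := lt_of_le_of_ne (hpos x) (fun h => hx0 ((h0 x).1 h.symm))
    refine ⟨N x, hNx, fun v => ?_⟩
    by_cases hv : v = 0
    · rw [hv, norm_zero, mul_zero]
      exact hpos _
    · obtain ⟨i, hi⟩ : ∃ i, ‖v i‖ = ‖v‖ := by
        have hn : Nonempty (Fin n) := by
          by_contra hc
          rw [not_nonempty_iff] at hc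
          exact hv (funext fun i => (hc.false i).elim)
        obtain ⟨i, _, hi⟩ := Finset.exists_mem_eq_sup' (Finset.univ_nonempty (α := Fin n))
          (fun i => ‖v i‖₊)
        refine ⟨i, ?_⟩
        rw [Pi.norm_def, ← coe_nnnorm, ← hi, Finset.sup'_eq_sup]
      have hv0 : ‖v‖ ≠ 0 := norm_ne_zero_iff.2 hv
      have hvi : v i ≠ 0 := by
        rw [← norm_ne_zero_iff, hi]
        exact hv0
      have h1 : (v i)⁻¹ • v ∈ Metric.sphere (0 : Fin n → ℚ_[p]) 1 := by
        rw [mem_sphere_zero_iff_norm, norm_smul, norm_inv, hi, inv_mul_cancel₀ hv0]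
      have h2 := hmin h1
      rw [Set.mem_ofPred_eq, hs, norm_inv, hi] at h2
      have h3 : 0 < ‖v‖ := norm_pos_iff.2 hv
      calc N x * ‖v‖ ≤ (‖v‖⁻¹ * N v) * ‖v‖ := mul_le_mul_of_nonneg_right h2 h3.le
        _ = N v := by field_simp

include h0 hpos hs hu in
/-- best approximation -/
theorem best (W : Submodule ℚ_[p] (Fin n → ℚ_[p])) (v : Fin n → ℚ_[p]) :
    ∃ w ∈ W, ∀ w' ∈ W, N (v - w) ≤ N (v - w') := by
  obtain ⟨c, hc, hl⟩ := lower h0 hpos hs hu
  have hcont : Continuous fun w => N (v - w) := (cont h0 hpos hs hu).comp (by fun_prop)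
  have hcl : IsClosed (W : Set (Fin n → ℚ_[p])) := W.closed_of_finiteDimensional
  have hco : ∀ᶠ x in cocompact (Fin n → ℚ_[p]) ⊓ 𝓟 (W : Set (Fin n → ℚ_[p])),
      N (v - 0) ≤ N (v - x) := by
    apply Filter.Eventually.filter_mono inf_le_left
    have h1 := (tendsto_norm_cocompact_atTop (E := Fin n → ℚ_[p])).eventually
      (eventually_ge_atTop (N (v - 0) / c + ‖v‖))
    filter_upwards [h1] with x hx
    refine le_trans ?_ (hl (v - x))
    have h2 : ‖x‖ - ‖v‖ ≤ ‖v - x‖ := by
      rw [norm_sub_rev]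
      exact norm_sub_norm_le x v
    have h3 : N (v - 0) / c ≤ ‖v - x‖ := by linarith
    rw [div_le_iff₀ hc] at h3
    linarith
  obtain ⟨w, hw, hmin⟩ := hcont.continuousOn.exists_isMinOn' hcl W.zero_mem hco
  exact ⟨w, hw, fun w' hw' => hmin hw'⟩

include h0 hpos hs hu in
theorem family : ∀ k : ℕ, k ≤ n → ∃ b : Fin k → (Fin n → ℚ_[p]), (∀ i, b i ≠ 0) ∧
    ∀ (c : Fin k → ℚ_[p]) (i : Fin k), ‖c i‖ * N (b i) ≤ N (∑ j, c j • b j) := by
  intro k
  induction k with
  | zero => exact fun _ => ⟨fun i => i.elim0, fun i => i.elim0, fun _ i => i.elim0⟩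
  | succ k ih =>
    intro hk
    obtain ⟨b, hb0, hb⟩ := ih (by omega)
    set W := Submodule.span ℚ_[p] (Set.range b) with hW
    have hWt : W ≠ ⊤ := by
      intro h
      have h1 : Module.finrank ℚ_[p] W ≤ k := by
        have := finrank_range_le_card (R := ℚ_[p]) b
        rwa [Fintype.card_fin] at this
      rw [h, finrank_top, Module.finrank_fin_fun] at h1
      omega
    obtain ⟨v, hv⟩ : ∃ v, v ∉ W := by
      by_contra hc
      push Not at hc
      exact hWt (eq_top_iff.2 fun x _ => hc x)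
    obtain ⟨w, hw, hmin⟩ := best h0 hpos hs hu W v
    have hlast : ∀ (c : ℚ_[p]) (x : Fin n → ℚ_[p]), x ∈ W →
        ‖c‖ * N (v - w) ≤ N (x + c • (v - w)) := by
      intro c x hx
      by_cases hc : c = 0
      · rw [hc, norm_zero, zero_mul]
        exact hpos _
      · have h1 : x + c • (v - w) = c • (v - (w - c⁻¹ • x)) := by
          rw [smul_sub, smul_sub, smul_sub, smul_smul, mul_inv_cancel₀ hc, one_smul]
          abel
        rw [h1, hs]
        exact mul_le_mul_of_nonneg_left (hmin _ (W.sub_mem hw (W.smul_mem _ hx))) (norm_nonneg _)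
    refine ⟨Fin.snoc b (v - w), fun i => ?_, fun c i => ?_⟩
    · refine Fin.lastCases ?_ (fun i => ?_) i
      · rw [Fin.snoc_last]
        intro h
        rw [sub_eq_zero] at h
        exact hv (h ▸ hw)
      · rw [Fin.snoc_castSucc]
        exact hb0 i
    · have hx : ∑ j : Fin k, c j.castSucc • b j ∈ W :=
        W.sum_mem fun j _ => W.smul_mem _ (Submodule.subset_span ⟨j, rfl⟩)
      have h1 : ∑ j, c j • (Fin.snoc b (v - w) : Fin (k + 1) → (Fin n → ℚ_[p])) j =
          ∑ j : Fin k, c j.castSucc • b j + c (Fin.last k) • (v - w) := by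
        rw [Fin.sum_univ_castSucc]
        simp only [Fin.snoc_castSucc, Fin.snoc_last]
      rw [h1]
      have h2 := hlast (c (Fin.last k)) _ hx
      refine Fin.lastCases ?_ (fun i => ?_) i
      · rw [Fin.snoc_last]
        exact h2
      · rw [Fin.snoc_castSucc]
        refine (hb (fun j => c j.castSucc) i).trans ?_
        set x := ∑ j : Fin k, c j.castSucc • b j with hxd
        have h3 := hu (x + c (Fin.last k) • (v - w)) (-(c (Fin.last k) • (v - w)))
        rw [add_neg_cancel_right, neg_eq hs, hs] at h3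
        exact h3.trans (max_le le_rfl h2)

end

theorem main : S_ORTH := by
  intro p _ n N h0 hpos hs hu
  obtain ⟨b, hb0, hb⟩ := family h0 hpos hs hu n le_rfl
  have hli : LinearIndependent ℚ_[p] b := by
    rw [Fintype.linearIndependent_iff]
    intro c hc i
    have h1 := hb c i
    rw [hc, (h0 0).2 rfl] at h1
    have h2 : 0 < N (b i) := lt_of_le_of_ne (hpos _) (fun h => hb0 i ((h0 _).1 h.symm))
    have h3 : ‖c i‖ ≤ 0 := by
      by_contra h
      push Not at h
      have := mul_pos h h2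
      linarith
    exact norm_le_zero_iff.1 h3
  refine ⟨basisOfLinearIndependentOfCardEqFinrank' b hli (by simp), fun c i => ?_⟩
  rw [coe_basisOfLinearIndependentOfCardEqFinrank']
  exact hb c i

end Pool.Agent.W563.TG
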